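import Pool.Agent.X229.TriMain

/-!
# MP_ebd346_nt : infinitely many primitive triangles for every occurring integer ratio

If a positive integer `k` is the base/height ratio (or the height/base ratio) of one integer-edged
triangle, then it is the same ratio of infinitely many primitive integer-edged triangles.
-/

namespace Pool.Agent.Results.MP_ebd346_nt.InfinitelyManyPrimitive

open Pool.Agent.X229.TriMain

/-- The Euclidean plane. -/
abbrev Plane := EuclideanSpace ℝ (Fin 2)

/-- `Tri s b c h`: there is a non-degenerate triangle `ABC` in the Euclidean plane whose edges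
`BC`, `AB`, `AC` have the natural numbers `s`, `b`, `c` as lengths and in which `h` is the altitude
from `A` to the line `BC` (the distance from `A` to that line). -/
def Tri (s b c : ℕ) (h : ℝ) : Prop :=
  ∃ A B C : Plane, AffineIndependent ℝ ![A, B, C] ∧
    dist B C = s ∧ dist A B = b ∧ dist A C = c ∧
    Metric.infDist A (line[ℝ, B, C] : Set Plane) = h

/-- `k` occurs as a base/height ratio. -/
def OccursBH (k : ℕ) : Prop := ∃ (s b c : ℕ) (h : ℝ), Tri s b c h ∧ (s : ℝ) / h = k

/-- `k` occurs as a height/base ratio. -/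
def OccursHB (k : ℕ) : Prop := ∃ (s b c : ℕ) (h : ℝ), Tri s b c h ∧ h / (s : ℝ) = k

/-- The primitive integer-edged triangles (given by the multiset of their three edge lengths) in
which `k` occurs as a base/height ratio. -/
def PrimBH (k : ℕ) : Set (Multiset ℕ) :=
  {T | ∃ (s b c : ℕ) (h : ℝ), T = {s, b, c} ∧ Nat.gcd s (Nat.gcd b c) = 1 ∧
    Tri s b c h ∧ (s : ℝ) / h = k}

/-- The primitive integer-edged triangles (given by the multiset of their three edge lengths) in
which `k` occurs as a height/base ratio. -/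
def PrimHB (k : ℕ) : Set (Multiset ℕ) :=
  {T | ∃ (s b c : ℕ) (h : ℝ), T = {s, b, c} ∧ Nat.gcd s (Nat.gcd b c) = 1 ∧
    Tri s b c h ∧ h / (s : ℝ) = k}

theorem infDist_eq {A P : Plane} {L : Set Plane} (hP : P ∈ L)
    (h : ∀ Q ∈ L, dist A P ≤ dist A Q) : Metric.infDist A L = dist A P :=
  le_antisymm (Metric.infDist_le_dist_of_mem hP) ((Metric.le_infDist ⟨P, hP⟩).2 (fun {Q} hQ => h Q hQ))

theorem dist_sq_line (A B C : Plane) (σ : ℝ) :
    dist A (AffineMap.lineMap B C σ) ^ 2
      = dist A B ^ 2 - 2 * σ * inner ℝ (A - B) (C - B) + σ ^ 2 * dist B C ^ 2 := by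
  rw [AffineMap.lineMap_apply, dist_eq_norm, dist_eq_norm, dist_eq_norm, ← norm_neg (B - C)]
  have h1 : A - (σ • (C -ᵥ B) +ᵥ B) = (A - B) - σ • (C - B) := by
    simp only [vsub_eq_sub, vadd_eq_add]
    abel
  rw [h1, @norm_sub_sq_real, norm_smul, inner_smul_right, neg_sub, mul_pow, Real.norm_eq_abs, sq_abs]
  ring

theorem mem_line_iff {B C Q : Plane} : Q ∈ line[ℝ, B, C] ↔ ∃ σ : ℝ, AffineMap.lineMap B C σ = Q := by
  constructor
  · intro h
    obtain ⟨σ, hσ⟩ := (mem_affineSpan_pair_iff_exists_lineMap_eq).1 h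
    exact ⟨σ, hσ⟩
  · rintro ⟨σ, rfl⟩
    exact AffineMap.lineMap_mem_affineSpan_pair σ B C

theorem tri_to_ctri {s b c : ℕ} {h : ℝ} (hT : Tri s b c h) : CTri s b c h := by
  obtain ⟨A, B, C, hi, hBC, hAB, hAC, hh⟩ := hT
  have hAB' : A ≠ B := hi.injective.ne (show (0 : Fin 3) ≠ 1 by decide)
  have hAC' : A ≠ C := hi.injective.ne (show (0 : Fin 3) ≠ 2 by decide)
  have hBC' : B ≠ C := hi.injective.ne (show (1 : Fin 3) ≠ 2 by decide)
  have hs : (0:ℝ) < s := by rw [← hBC]; exact dist_pos.mpr hBC'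
  have hb : (0:ℝ) < b := by rw [← hAB]; exact dist_pos.mpr hAB'
  have hc : (0:ℝ) < c := by rw [← hAC]; exact dist_pos.mpr hAC'
  set I : ℝ := inner ℝ (A - B) (C - B) with hI
  set τ : ℝ := I / (s:ℝ) ^ 2 with hτ
  have hIτ : I = τ * (s:ℝ) ^ 2 := by rw [hτ]; field_simp
  have hd : ∀ σ : ℝ, dist A (AffineMap.lineMap B C σ) ^ 2
      = dist A (AffineMap.lineMap B C τ) ^ 2 + (σ - τ) ^ 2 * (s:ℝ) ^ 2 := by
    intro σ
    rw [dist_sq_line, dist_sq_line, ← hI, hIτ, hBC]
    ring
  have hP : Metric.infDist A (line[ℝ, B, C] : Set Plane) = dist A (AffineMap.lineMap B C τ) := by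
    apply infDist_eq
    · exact mem_line_iff.2 ⟨τ, rfl⟩
    · intro Q hQ
      obtain ⟨σ, rfl⟩ := mem_line_iff.1 hQ
      apply le_of_sq_le_sq _ dist_nonneg
      rw [hd σ]
      nlinarith [mul_nonneg (sq_nonneg (σ - τ)) (sq_nonneg (s:ℝ))]
  rw [hP] at hh
  have hpos : 0 < h := by
    rw [← hh]
    apply dist_pos.mpr
    intro hA
    have hmem : A ∈ line[ℝ, B, C] := mem_line_iff.2 ⟨τ, hA.symm⟩
    have hcol : Collinear ℝ ({A, B, C} : Set Plane) := by
      rw [collinear_insert_iff_of_mem_affineSpan hmem]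
      exact collinear_pair ℝ B C
    exact (affineIndependent_iff_not_collinear_set.1 hi) hcol
  refine ⟨by exact_mod_cast hs, by exact_mod_cast hb, by exact_mod_cast hc, hpos, τ * s, ?_, ?_⟩
  · have := hd 0
    rw [AffineMap.lineMap_apply_zero, hh, hAB] at this
    rw [this]
    ring
  · have := hd 1
    rw [AffineMap.lineMap_apply_one, hh, hAC] at this
    rw [this]
    ring

theorem ctri_to_tri {s b c : ℕ} {h : ℝ} (hT : CTri s b c h) : Tri s b c h := by
  obtain ⟨hs, hb, hc, hh, x, h1, h2⟩ := hT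
  have hs' : (0:ℝ) < s := by exact_mod_cast hs
  have hline : ∀ σ : ℝ, AffineMap.lineMap (!₂[(0:ℝ), 0] : Plane) !₂[(s:ℝ), 0] σ
      = !₂[σ * s, 0] := by
    intro σ
    ext i
    fin_cases i <;> simp [AffineMap.lineMap_apply]
  refine ⟨!₂[x, h], !₂[0, 0], !₂[(s:ℝ), 0], ?_, ?_, ?_, ?_, ?_⟩
  · rw [affineIndependent_iff_not_collinear_set]
    intro hcol
    have hne : (!₂[(0:ℝ), 0] : Plane) ≠ !₂[(s:ℝ), 0] := by
      intro he
      have := congrFun (congrArg WithLp.ofLp he) 0
      simp at this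
      exact hs'.ne this
    have hmem := hcol.mem_affineSpan_of_mem_of_ne (p₁ := (!₂[(0:ℝ), 0] : Plane))
      (p₂ := !₂[(s:ℝ), 0]) (p₃ := !₂[x, h]) (by simp) (by simp) (by simp) hne
    obtain ⟨σ, hσ⟩ := mem_line_iff.1 hmem
    rw [hline] at hσ
    have := congrFun (congrArg WithLp.ofLp hσ) 1
    simp at this
    exact hh.ne this
  · rw [EuclideanSpace.dist_eq, Fin.sum_univ_two]
    simp
  · rw [EuclideanSpace.dist_eq, Fin.sum_univ_two]
    simp only [Real.dist_eq, sq_abs]
    simp
    rw [h1]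
    exact Real.sqrt_sq (by positivity)
  · rw [EuclideanSpace.dist_eq, Fin.sum_univ_two]
    simp only [Real.dist_eq, sq_abs]
    simp
    rw [show (x - (s:ℝ)) ^ 2 + h ^ 2 = (c:ℝ) ^ 2 by rw [← h2]; ring]
    exact Real.sqrt_sq (by positivity)
  · have hP : dist (!₂[x, h] : Plane) !₂[x, 0] = h := by
      rw [EuclideanSpace.dist_eq, Fin.sum_univ_two]
      simp only [Real.dist_eq, sq_abs]
      simp
      exact Real.sqrt_sq hh.le
    rw [infDist_eq (P := !₂[x, 0]), hP]
    · apply mem_line_iff.2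
      refine ⟨x / s, ?_⟩
      rw [hline]
      congr 2
      field_simp
    · intro Q hQ
      obtain ⟨σ, rfl⟩ := mem_line_iff.1 hQ
      rw [hline, hP, EuclideanSpace.dist_eq, Fin.sum_univ_two]
      simp only [Real.dist_eq, sq_abs]
      apply Real.le_sqrt_of_sq_le
      simp
      exact sq_nonneg _

/-- **MP_ebd346_nt, Q1: yes.**  Every positive integer that occurs as a base/height ratio
(respectively as a height/base ratio) of an integer-edged triangle does so for infinitely many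
primitive integer-edged triangles. -/
theorem result (k : ℕ) (hk : 0 < k) :
    (OccursBH k → (PrimBH k).Infinite) ∧ (OccursHB k → (PrimHB k).Infinite) := by
  constructor
  · rintro ⟨s, b, c, h, hT, hr⟩
    apply (main_bh hk (tri_to_ctri hT) hr).mono
    rintro T ⟨s, b, c, h, hT', hg, hC, he⟩
    exact ⟨s, b, c, h, hT', hg, ctri_to_tri hC, he⟩
  · rintro ⟨s, b, c, h, hT, hr⟩
    apply (main_hb hk (tri_to_ctri hT) hr).mono
    rintro T ⟨s, b, c, h, hT', hg, hC, he⟩
    exact ⟨s, b, c, h, hT', hg, ctri_to_tri hC, he⟩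

end Pool.Agent.Results.MP_ebd346_nt.InfinitelyManyPrimitive
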